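import Pool.Agent.Lib.MP_305fdd_al.F2.TF.Defs

/-!
# MP_305fdd_al (`F_2`), section A: nilpotence of the Cartier operator. Statements and proofs.

`p` a prime, `P = F_p[t_1, .., t_d]`, `B` a commutative ring whose finite quotients are the same
as those of `F_p[x_1, .., x_m]` (`IsTR`).  Part 1: `B` is finite and projective over a polynomial
ring `F_p[t_1, .., t_m]` with `t_i = x_i + s_i ^ M` (any given `x_i ∈ B`), and has `p ^ (m n)`
points over the field with `p ^ n` elements.  Part 2: trace formula over a ring of characteristic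
zero, congruence for the `L`-function, nilpotence of `cart` on `Hom_P(B, P)`.
-/

set_option autoImplicit false

namespace Pool.Agent.F2TF

open MvPolynomial Matrix
open Pool.Agent.CC (IsTR)

/-! ## Part 1: counting -/

/-- [TF a1] Kunz count: `|A / J^[p]| = |A / J| ^ (p ^ d)` for `A = F_p[t_1, .., t_d]`.

Proof. For `α : Fin d → Fin p` use `comp α` (Defs). (i) `a = ∑ α, (comp α a) ^ p * t ^ α`: compare
coefficients; over `ZMod p` one has `b ^ p = expand p b` (`MvPolynomial.expand_zmod`), and every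
exponent is uniquely `p • w + α`. (ii) `comp α (a ^ p * b) = a * comp α b` (by (i)/coefficients:
`a ^ p = expand p a`; reduce to monomials `b`, or to monomials `a`). (iii) The additive map
`A → (α → A / J)`, `a ↦ (comp α a mod J)_α` is surjective (`a = ∑ (c α) ^ p t ^ α` has components
`c α`) with kernel `fpow p J`: if all `comp α a ∈ J` then `a ∈ fpow p J` by (i); conversely elements
`a ^ p * b`, `a ∈ J`, have components `a * comp α b ∈ J`, and the kernel is closed under addition and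
multiplication by `A` (again (ii) for a generating set: the kernel is an ideal because
`comp α (b * c) = ∑ β, comp β b * comp α (t ^ β c)`, or simply use the span induction with elements
`a ^ p * b`). So `A / fpow p J ≃ (α → A / J)` as additive groups, `Nat.card = |A/J| ^ (p ^ d)`. -/
def S_compcard : Prop :=
  ∀ (p d : ℕ) [Fact p.Prime] (J : Ideal (Pol p d)), Finite (Pol p d ⧸ J) →
    Finite (Pol p d ⧸ fpow p J) ∧
      Nat.card (Pol p d ⧸ fpow p J) = Nat.card (Pol p d ⧸ J) ^ (p ^ d)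

/-- [TF a2] `|B / I^[p ^ n]| = |B / I| ^ (p ^ (m n))` for every ideal `I` of finite index.
(Uses `S_compcard`.)

Proof. `fpow (p ^ (n+1)) I = fpow p (fpow (p ^ n) I)` in characteristic `p`
(`(∑ c_i a_i ^ q) ^ p = ∑ c_i ^ p a_i ^ (q p)`), so by induction it suffices to treat `n = 1` (for
`n = 0`: `fpow 1 I = I`). `B` is Noetherian (`IsTR.fg`), `I` is finitely generated by `b_1, .., b_k`;
`B / fpow p I` is finite: it is a finitely generated `F_p`-algebra in which the ideal `I / fpow p I` is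
nilpotent and finitely generated, with finite quotient `B / I` (or: `fpow p I ⊇ I ^ (k p)`, and `B / I ^ N`
is finite by induction as each `I ^ j / I ^ (j+1)` is a finitely generated `B / I`-module).
By `IsTR.fin`, `I = ker (ev J)` and `fpow p I = ker (ev J')`. First, for ideals `J₁ J₂` of finite
index: `ker (ev J₁) ≤ ker (ev J₂) ↔ J₁ ≤ J₂`. (`←`: `IsTR.compat`. `→`: `ker (ev (J₁ ⊓ J₂)) =
ker (ev J₁) ⊓ ker (ev J₂) = ker (ev J₁)`: indeed `ev (J₁ ⊓ J₂) b = 0` iff its images in `A / J₁` and `A / J₂`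
vanish; by `IsTR.inj`, `J₁ ⊓ J₂ = J₁`.) In particular `J' ≤ J`. CLAIM `J' = fpow p J`:
(a) `fpow p J ≤ J'`: for `a ∈ J` choose `b ∈ B` with `ev J' b = a mod J'` (`IsTR.surj`); then
`ev J b = a mod J = 0` (`IsTR.compat`), so `b ∈ I`, `b ^ p ∈ fpow p I = ker (ev J')`, so `a ^ p ∈ J'`.
(b) `J' ≤ fpow p J`: `fpow p J` has finite index (`S_compcard`); by the order statement it suffices that
`fpow p I ≤ ker (ev (fpow p J))`: for `b ∈ I`, `ev (fpow p J) b` is the class of some `a ∈ A` with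
`a ∈ J` (compat), so `ev (fpow p J) (b ^ p)` is the class of `a ^ p ∈ fpow p J`, `= 0`.
Hence `|B / fpow p I| = |A / fpow p J| = |A / J| ^ (p ^ m) = |B / I| ^ (p ^ m)` using the ring
isomorphisms `B / ker (ev J) ≃ A / J`. -/
def S_count : Prop :=
  ∀ (p m : ℕ) [Fact p.Prime] (B : Type) [CommRing B] [Algebra (ZMod p) B]
    (ev : ∀ J : {J : Ideal (Pol p m) // Finite (Pol p m ⧸ J)}, B →ₐ[ZMod p] Pol p m ⧸ J.1),
    IsTR p (Pol p m) B ev → ∀ I : Ideal B, Finite (B ⧸ I) → ∀ n : ℕ,
      Finite (B ⧸ fpow (p ^ n) I) ∧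
        Nat.card (B ⧸ fpow (p ^ n) I) = Nat.card (B ⧸ I) ^ (p ^ (m * n))

/-- [TF a3] number of points: `|X(F_(p^n))| = p ^ (m n)`.

Proof. `F := {c ∈ K : c ^ (p ^ n) = c}` is a finite subring of `K` with `p ^ n` elements
(`card_fset`). (1) The set `{χ : A →+* K | ∀ a, χ a ^ (p ^ n) = χ a}`, `A = Pol p m`, has
`(p ^ n) ^ m` elements: `χ ↦ (χ (X i))_i` is a bijection onto `fpts p n m K` (`eval₂Hom` with
`algebraMap (ZMod p) K`; two ring homs from `ZMod p` are equal; the condition for all `a` follows from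
the condition for the `X i` because `c ↦ c ^ (p ^ n)` is a ring hom).
(2) Bijection between these `χ` and the `x : B →+* K` with `x b ^ (p ^ n) = x b`: given `x`, its image
is finite, so `ker x` has finite index, `ker x = ker (ev J)` for a unique `J` (`IsTR.fin`, `IsTR.inj`);
as `ev J` is surjective there is a unique ring hom `x' : A / J → K` with `x = x' ∘ ev J`
(`RingHom.liftOfSurjective`/`Ideal.quotientKerEquivOfSurjective`), it is injective; put
`χ = x' ∘ mk J`, `ker χ = J`. Conversely `χ ↦ J = ker χ` (finite index), `χ = χ' ∘ mk J`, `χ'` injective,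
`x = χ' ∘ ev J`, `ker x = ker (ev J)`. The two constructions are inverse to each other. It is enough
to prove injectivity and surjectivity of `x ↦ χ` (or to compare the numbers for each `J`). -/
def S_points : Prop :=
  ∀ (p m : ℕ) [Fact p.Prime] (B : Type) [CommRing B] [Algebra (ZMod p) B]
    (ev : ∀ J : {J : Ideal (Pol p m) // Finite (Pol p m ⧸ J)}, B →ₐ[ZMod p] Pol p m ⧸ J.1),
    IsTR p (Pol p m) B ev → ∀ (K : Type) [Field K] [IsAlgClosed K] [CharP K p] (n : ℕ), n ≠ 0 →
      Nat.card {x : B →+* K // ∀ b, x b ^ (p ^ n) = x b} = p ^ (m * n)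

/-- [TF a4] a linear form with `l 1 ≠ 0`.

Proof. Let `K = FractionRing S`, `V = LocalizedModule (nonZeroDivisors S) B` (or
`K ⊗[S] B`), a `K`-vector space; the image of `1` is nonzero because `s • 1 = 0`, `s ∈ S`, gives
`s = 0` (injectivity). Choose `f : V →ₗ[K] K` with `f 1 = 1`, let `b_1, .., b_k` generate `B`, `s ≠ 0`
a common denominator of the `f b_j`; then `b ↦ s • f b` has values in `S`, `l 1 = s ≠ 0`.
(Alternative: extend `1` to a maximal `S`-linearly independent family.) -/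
def S_dual : Prop :=
  ∀ (S B : Type) [CommRing S] [IsDomain S] [CommRing B] [Algebra S B] [Module.Finite S B],
    Function.Injective (algebraMap S B) → ∃ l : B →ₗ[S] S, l 1 ≠ 0

/-- [TF a5] dimension: in a Noether normalisation `F_p[t_1, .., t_d] → B` one has `d = m`.
(Uses `S_compcard`, `S_count`, `S_dual`.)

Proof. `S = Pol p d`, view `B` as `S`-algebra by `g`. Let `l : B →ₗ[S] S`, `h = l 1 ≠ 0` (`S_dual`),
and choose a maximal ideal `N` of `S` with `h ∉ N` (`S` is a Jacobson domain: the intersection of its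
maximal ideals is `0`); `S / N` is finite (finitely generated algebra over `ZMod p` which is a field is
finite over it, Zariski's lemma), `c := |S / N| ≥ 2`. Let `k` be the number of generators of the
`S`-module `B`, `q = p ^ n`, `I = N B` (`Ideal.map g N`); `fpow q I = Ideal.map g (fpow q N)` (in
characteristic `p`). `l` induces `S`-linear maps `B / fpow q I → S / fpow q N`, whose image is an ideal
containing the class of `h`; this class is a unit because `S / fpow q N` is local with maximal ideal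
`N / fpow q N` (every maximal ideal containing `fpow q N` contains `N`); so it is surjective. Hence
`|S / fpow q N| ≤ |B / fpow q I| ≤ |S / fpow q N| ^ k`, also for `q = 1`. With `|S / fpow q N| = c ^ (q ^ d)`
(`S_compcard` iterated) and `|B / fpow q I| = |B / I| ^ (q ^ m)` (`S_count`; `B / I` is finite):
`c ^ (q ^ m) ≤ |B / I| ^ (q ^ m) ≤ c ^ (k q ^ d)` and `c ^ (q ^ d) ≤ |B / I| ^ (q ^ m) ≤ c ^ (k q ^ m)`. So
`q ^ m ≤ k q ^ d` and `q ^ d ≤ k q ^ m` for all `q = p ^ n`; `n → ∞` gives `m ≤ d ≤ m`. -/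
def S_dim : Prop :=
  ∀ (p m : ℕ) [Fact p.Prime] (B : Type) [CommRing B] [Algebra (ZMod p) B]
    (ev : ∀ J : {J : Ideal (Pol p m) // Finite (Pol p m ⧸ J)}, B →ₐ[ZMod p] Pol p m ⧸ J.1),
    IsTR p (Pol p m) B ev → ∀ (d : ℕ) (g : Pol p d →ₐ[ZMod p] B), Function.Injective g →
      g.Finite → d = m

/-- [TF a6] Noether normalisation with `t_i = x_i + s_i ^ m`.

Proof. Let `ι = aeval (x_i + s_i ^ m)`, `t_i = x_i + s_i ^ m`. `x_i` is integral over `k[s]`; choose
one `n ≥ 1` and polynomials `a_ij` (`1 ≤ j ≤ n`) with `x_i ^ n + ∑ j, a_ij(s) x_i ^ (n - j) = 0` for all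
`i` (multiply by powers of `x_i` to get the same `n`), `δ` a bound for the total degrees of the `a_ij`,
`m₀ = δ + 1`. With `x_i = t_i - s_i ^ m`:
`(t_i - s_i ^ m) ^ n + ∑ j, a_ij(s) (t_i - s_i ^ m) ^ (n - j) = 0`, so `± s_i ^ (m n)` is a combination,
with coefficients in `k[t]`, of monomials `s ^ e` with `|e| ≤ max (m (n - 1)) (δ + m (n - 1)) < m n`.
Let `T` be the `k[t]`-submodule of `B` spanned by ALL monomials `s ^ e` (a subalgebra: `ι`-range adjoined
`s`), and `N` the submodule spanned by the finitely many `s ^ e` with all `e_i < m n`. By strong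
induction on `|e|`, `s ^ e ∈ N`: if `e_i ≥ m n`, then `s ^ e = s_i ^ (m n) * s ^ (e - m n 1_i)` is a
combination of monomials of smaller total degree. So `T = N` is a finitely generated `k[t]`-module and a
subalgebra, so every `s_i` is integral over `k[t]` (`IsIntegral.of_mem_of_fg`); `B` is integral over
`k[s]`, so over `k[t]` (transitivity), and it is of finite type, so finite. -/
def S_noether : Prop :=
  ∀ (k B : Type) [Field k] [CommRing B] [Algebra k B] (d : ℕ) (s x : Fin d → B),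
    (aeval s : MvPolynomial (Fin d) k →ₐ[k] B).Finite → ∃ m₀ : ℕ, ∀ m ≥ m₀,
      (aeval (fun i => x i + s i ^ m) : MvPolynomial (Fin d) k →ₐ[k] B).Finite

/-- [TF a7] lifts of a basis of `B / N B` are linearly independent. (Uses `S_compcard`, `S_count`.)

Proof. `P = Pol p m`, `κ = P / N` finite, `c = |κ|`, `|B / N B| = c ^ δ` by the two hypotheses.
Let `q = p ^ n`. `N ^ j ≤ fpow q N` for some `j` (`N` finitely generated). From
`B = ∑ P b_i + N B` one gets `B = ∑ P b_i + N ^ j B` for all `j`, so the `P`-linear map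
`(P / fpow q N) ^ δ → B / (fpow q N) B`, `c ↦ ∑ c_i b_i`, is surjective. Both sides have the same finite
number of elements: `|P / fpow q N| ^ δ = c ^ (q ^ m δ)` (`S_compcard` iterated) and
`(fpow q N) B = fpow q (N B)`, `|B / fpow q (N B)| = (c ^ δ) ^ (q ^ m)` (`S_count`). So the map is
injective: if `∑ c_i b_i = 0` then `c_i ∈ fpow q N ≤ N ^ q` for all `q = p ^ n`, so `c_i = 0` by Krull's
intersection theorem (`Ideal.iInf_pow_eq_bot_of_isDomain`). -/
def S_indep : Prop :=
  ∀ (p m : ℕ) [Fact p.Prime] (B : Type) [CommRing B] [Algebra (ZMod p) B]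
    (ev : ∀ J : {J : Ideal (Pol p m) // Finite (Pol p m ⧸ J)}, B →ₐ[ZMod p] Pol p m ⧸ J.1),
    IsTR p (Pol p m) B ev → ∀ [Algebra (Pol p m) B] [Module.Finite (Pol p m) B]
    (N : Ideal (Pol p m)) [N.IsMaximal] (δ : ℕ) (b : Fin δ → B),
    (∀ x : B, ∃ c : Fin δ → Pol p m,
      x - ∑ i, c i • b i ∈ N.map (algebraMap (Pol p m) B)) →
    (∀ c : Fin δ → Pol p m, ∑ i, c i • b i ∈ N.map (algebraMap (Pol p m) B) → ∀ i, c i ∈ N) →
    LinearIndependent (Pol p m) b

/-- [TF a8] `B` is projective over `P = Pol p m`. (Uses `S_indep`.)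

Proof. `B` is finitely presented (`P` is Noetherian), so by
`Module.projective_of_localization_maximal` it is enough that the localisation at every maximal ideal `N`
is free. Choose `b_1, .., b_δ ∈ B` whose images are a basis of the `P / N`-vector space `B / N B`. They are
linearly independent over `P` (`S_indep`), hence over `P_N` in `B_N` (a relation `∑ (a_i / s) b_i = 0` in
`B_N` gives `∑ u a_i b_i = 0` in `B`, `u ∉ N`, so `u a_i = 0`, `a_i = 0`), and they generate `B_N` by
Nakayama's lemma. -/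
def S_proj : Prop :=
  ∀ (p m : ℕ) [Fact p.Prime] (B : Type) [CommRing B] [Algebra (ZMod p) B]
    (ev : ∀ J : {J : Ideal (Pol p m) // Finite (Pol p m ⧸ J)}, B →ₐ[ZMod p] Pol p m ⧸ J.1),
    IsTR p (Pol p m) B ev → ∀ [Algebra (Pol p m) B] [Module.Finite (Pol p m) B],
    Module.Projective (Pol p m) B

/-! ## Part 2: the trace formula in characteristic zero -/

/-- [TF b1] powers of `opMat`.

Proof. Induction on `n`; `n = 0`: the entry of `opMat 1 D J 1` at `(v, j), (w, k)` is the coefficient of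
`t ^ (w - v)` in `δ_jk` if `v ≤ w`, so `1` if `v = w`, `j = k` and `0` otherwise. Step:
`(opMat p D J H) ^ (n+1) = opMat p D J H * opMat (p ^ n) D J (hpow p H n)` has the entry at
`(v, j), (w, l)`: `∑ z ∈ Idx, ∑ k, [v ≤ p z, z ≤ p ^ n w] coeff (p z - v) (H j k) *
coeff (p ^ n w - z) (hpow p H n k l)`. On the other side
`hpow p H (n+1) j l = ∑ k, H j k * expand p (hpow p H n k l)` has the coefficient
`∑ k, ∑ u', coeff (p ^ (n+1) w - v - p u') (H j k) * coeff u' (hpow p H n k l)` at `p ^ (n+1) w - v`, the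
sum over all `u' : Fin d →₀ ℕ` with `p u' ≤ p ^ (n+1) w - v` (`coeff_mul`, `coeff_expand_smul`,
`coeff_expand_of_not_dvd`). Substitute `u' = p ^ n w - z` (`u' ≤ p ^ n w` because `p u' ≤ p ^ (n+1) w`):
`p ^ (n+1) w - v - p u' = p z - v`, and the condition becomes `v ≤ p z`, `z ≤ p ^ n w`. A nonzero term has
`p z_i - v_i ≤ (p - 1) D`, `v_i ≤ D`, so `z_i ≤ D`; and `z_i ≠ 0` if `v_i ≠ 0`. So `z ∈ Idx d D J`. If
`¬ v ≤ p ^ (n+1) w` both sides are zero (`v ≤ p z ≤ p ^ (n+1) w`). -/
def S_opmul : Prop :=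
  ∀ (p d r D : ℕ) (R : Type) [CommRing R] (J : Finset (Fin d))
    (H : Matrix (Fin r) (Fin r) (MvPolynomial (Fin d) R)), 2 ≤ p → DegLe ((p - 1) * D) H →
    ∀ n, opMat p D J H ^ n = opMat (p ^ n) D J (hpow p H n)

/-- [TF b2] degrees of `hpow`.

Proof. Induction: `degreeOf i (expand p f) = p * degreeOf i f` (or `≤`), `degreeOf_mul_le`,
`degreeOf_sum_le`, `(p - 1) D + p ((p ^ n - 1) D) = (p ^ (n+1) - 1) D`. -/
def S_opdeg : Prop :=
  ∀ (p d r D : ℕ) (R : Type) [CommRing R] (H : Matrix (Fin r) (Fin r) (MvPolynomial (Fin d) R)),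
    1 ≤ p → DegLe ((p - 1) * D) H → ∀ n, DegLe ((p ^ n - 1) * D) (hpow p H n)

/-- [TF b3] sums of powers of Teichmüller representatives.

Proof. `m = 0`: the number of elements (`card_fset`). `m > 0`: the term `y = 0` is `0`; the nonzero
elements of `fset p n K` are the `(p ^ n - 1)`-th roots of unity in `K` (`rootsOfUnity`, cyclic of order
`p ^ n - 1`), `y ↦ tei y ^ m` is a homomorphism of this finite group to the domain `O`; it is trivial iff
`(p ^ n - 1) ∣ m` (`tei` is injective because `red (tei y) = y`; the group is cyclic of that order). Use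
`sum_hom_units_eq_zero`/`sum_hom_units` (`Mathlib.RingTheory.IntegralDomain`). -/
def S_teisum : Prop :=
  ∀ (p : ℕ) [Fact p.Prime] (K O : Type) [Field K] [IsAlgClosed K] [CharP K p] [CommRing O]
    [IsDomain O] (T : TeiData K O) (n m : ℕ), n ≠ 0 →
    ∑ y ∈ fset p n K, T.tei y ^ m =
      if p ^ n - 1 ∣ m then (if m = 0 then (p : O) ^ n else (p : O) ^ n - 1) else 0

/-- [TF b4] sum of the values of a polynomial at the Teichmüller points. (Uses `S_teisum`.)

Proof. `∑ y ∈ fpts, aeval (tei y) G = ∑ u ∈ G.support, coeff u G * ∏ i, s (u i)`,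
`s m = ∑ y ∈ fset, tei y ^ m` (`Finset.prod_univ_sum`, `aeval_def`, `eval₂_eq'`), and
`s m = p ^ n - [m ≠ 0]` if `(p ^ n - 1) ∣ m`, `0` otherwise. So only `u = (p ^ n - 1) v` contribute, `v_i ≤ D`
by the degree bound (`p ^ n - 1 ≥ 1`), and `∏ i, (Q - [v_i ≠ 0]) =
∑ J, Q ^ |J| (-1) ^ (d - |J|) ∏ i ∉ J, [v_i ≠ 0]` (`Finset.prod_add`/`Finset.prod_sub` …). Exchange the
sums; `∏ i ∉ J, [v_i ≠ 0]` is the indicator of `Idx d D J`. -/
def S_ptsum : Prop :=
  ∀ (p : ℕ) [Fact p.Prime] (K O : Type) [Field K] [IsAlgClosed K] [CharP K p] [CommRing O]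
    [IsDomain O] (T : TeiData K O) (d D n : ℕ) (G : MvPolynomial (Fin d) ℤ), n ≠ 0 →
    (∀ i, degreeOf i G ≤ (p ^ n - 1) * D) →
    ∑ y ∈ fpts p n d K, aeval (fun i => T.tei (y i)) G =
      ∑ J : Finset (Fin d), (-1) ^ (d - J.card) * ((p : O) ^ n) ^ J.card *
        ∑ v : Idx d D J, ((coeff ((p ^ n - 1) • ex v) G : ℤ) : O)

/-- [TF b5] trace of the powers of `phiMat`.

Proof. By induction on `n ≥ 0` the entry of `phiMat p M τ H ^ n` at `(y, j), (z, k)` is
`aeval (τ y) (hpow p H n j k)` if `z = y ^ (p ^ n)` and `0` otherwise (`Y = fpts p M d K` is closed under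
`y ↦ y ^ p`; `τ (y ^ p) = (τ y) ^ p`, `aeval_expand`). The trace is the sum over the `y ∈ Y` with
`y ^ (p ^ n) = y` of `∑ j, aeval (τ y) (hpow p H n j j)`; as `n ∣ M` these are exactly the points of
`fpts p n d K` (`y ^ (p ^ n) = y → y ^ (p ^ M) = y`). -/
def S_phitr : Prop :=
  ∀ (p : ℕ) [Fact p.Prime] (K O : Type) [Field K] [CommRing O] (τ : K →* O) (d r M n : ℕ)
    (H : Matrix (Fin r) (Fin r) (MvPolynomial (Fin d) ℤ)), n ≠ 0 → M ≠ 0 → n ∣ M →
    (phiMat p M τ H ^ n).trace =
      ∑ y ∈ fpts p n d K, aeval (fun i => τ (y i)) (hpow p H n).trace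

/-- [TF b6] the trace formula. (Uses `S_opmul`, `S_opdeg`, `S_ptsum`, `S_phitr`.)

Proof. `trace (opMat p D J H ^ n) = trace (opMat (p ^ n) D J (hpow p H n)) =
∑ v : Idx d D J, coeff (p ^ n v - v) (trace (hpow p H n))`, `p ^ n v - v = (p ^ n - 1) v`. Now `S_phitr` and
`S_ptsum` for `G = trace (hpow p H n)`, whose degrees are bounded by `S_opdeg`. -/
def S_trace : Prop :=
  ∀ (p : ℕ) [Fact p.Prime] (K O : Type) [Field K] [IsAlgClosed K] [CharP K p] [CommRing O]
    [IsDomain O] (T : TeiData K O) (d r D M n : ℕ)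
    (H : Matrix (Fin r) (Fin r) (MvPolynomial (Fin d) ℤ)), DegLe ((p - 1) * D) H →
    n ≠ 0 → M ≠ 0 → n ∣ M →
    (phiMat p M T.tei H ^ n).trace =
      ∑ J : Finset (Fin d), (-1) ^ (d - J.card) * ((p : O) ^ n) ^ J.card *
        (((opMat p D J H ^ n).trace : ℤ) : O)

/-- [TF b7] Newton's identities for a matrix.

Proof. `f = det (1 - X M) ∈ O[X]`. Jacobi's formula / or: it is enough to treat the generic matrix over
`ℤ[x_ij]`, so a domain of characteristic zero, then its fraction field and an algebraic closure, where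
`f = ∏ (1 - λ_i X)`, `trace (M ^ k) = ∑ λ_i ^ k` (`Matrix.trace_pow_eq…`/roots of the
characteristic polynomial), and `X f' = - f ∑ i, λ_i X / (1 - λ_i X)`; both sides are additive. Direct
proof by Jacobi: `f' = - trace (adjugate (1 - X M) * M)` (`Matrix.derivative_det…`) and, in `O⟦X⟧`,
`adjugate (1 - X M) = f • ∑ k, X ^ k M ^ k`. Compare the coefficients of `X ^ k`. -/
def S_ldchar : Prop :=
  ∀ (O : Type) [CommRing O] (n : Type) [Fintype n] [DecidableEq n] (M : Matrix n n O),
    LD (M.charpolyRev : PowerSeries O) fun k => (M ^ k).trace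

/-- [TF b8] products and uniqueness.

Proof. (1) `X f' = - f S`, `X g' = - g T` give `X (f g)' = - (f g) (S + T)`; `LD f s` says
`X * d/dX f = - f * PowerSeries.mk (fun n => if n = 0 then 0 else s n)` (`PowerSeries.derivative`).
(2) induction on `k`: `(k+1) f_(k+1)` is determined by `f_0, .., f_k` and `s_1, .., s_(k+1)`. -/
def S_ld : Prop :=
  (∀ (O : Type) [CommRing O] (f g : PowerSeries O) (s t : ℕ → O), LD f s → LD g t →
    LD (f * g) (s + t)) ∧
  (∀ (O : Type) [CommRing O] [IsDomain O] [CharZero O] (f g : PowerSeries O) (s t : ℕ → O) (N : ℕ),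
    LD f s → LD g t → (∀ k, 1 ≤ k → k ≤ N → s k = t k) →
    ∀ k ≤ N, PowerSeries.coeff k f = PowerSeries.coeff k g)

/-- [TF b9] the congruence modulo `p`. (Uses `S_trace`, `S_ldchar`, `S_ld`.)

Proof. Put `e J = (-1) ^ (d - |J|)`, `A_J = (p ^ |J|) • (opMat p D J H mapped to O)`,
`f = charpolyRev (phiMat p M tei H) * ∏ (J with e J = -1) charpolyRev A_J`,
`g = ∏ (J with e J = 1) charpolyRev A_J`. By `S_trace`, `trace (phiMat ^ k) = ∑ J, e J trace (A_J ^ k)` for
`1 ≤ k ≤ N`, so by `S_ldchar`, `S_ld` the coefficients of `f` and `g` agree up to degree `N`. Apply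
`red : O → K`: `red` maps `charpolyRev A_J` to `charpolyRev (red A_J) = charpolyRev 0 = 1` for `J ≠ ∅`
(`red p = 0`), and `phiMat p M tei H` to `phiMat p M id H` (`red (tei y) = y`). If `d` is even this says
`charpolyRev (phiMat p M id H) ≡ charpolyRev A_∅`, if `d` is odd
`charpolyRev (phiMat p M id H) * charpolyRev A_∅ ≡ 1` modulo `X ^ (N+1)`. -/
def S_modp : Prop :=
  ∀ (p : ℕ) [Fact p.Prime] (K O : Type) [Field K] [IsAlgClosed K] [CharP K p] [CommRing O]
    [IsDomain O] [CharZero O], TeiData K O → ∀ (d r D M N : ℕ)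
    (H : Matrix (Fin r) (Fin r) (MvPolynomial (Fin d) ℤ)), DegLe ((p - 1) * D) H → M ≠ 0 →
    (∀ n, 1 ≤ n → n ≤ N → n ∣ M) →
    (∀ k ≤ N, (phiMat p M (fun y : K => y) H).charpolyRev.coeff k = if k = 0 then 1 else 0) →
    ∀ k ≤ N, ((opMat p D ∅ H).map (Int.castRingHom K)).charpolyRev.coeff k = if k = 0 then 1 else 0

/-! ## Part 2': the reduction modulo `p` of `phiMat` -/

/-- [TF c1] the powers of the Frobenius in coordinates.

Proof. Induction on `n`: `b_j ^ (p ^ (n+1)) = (∑ i, h_ij b_i) ^ p = ∑ i, h_ij ^ p b_i ^ p`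
(`h = hpow p F n`; characteristic `p`), `h_ij ^ p = expand p h_ij` (`MvPolynomial.expand_zmod`) and
`b_i ^ p = ∑ k, μ_k (b_i ^ p) b_k`. Second statement: `hpow p F (n+1) = F * _` and
`∑ k, μ_i (b_k) μ_k (x) = μ_i x`. -/
def S_frobpow : Prop :=
  ∀ (p d r : ℕ) [Fact p.Prime] (B : Type) [CommRing B] [Algebra (Pol p d) B] (b : Fin r → B)
    (μ : Fin r → (B →ₗ[Pol p d] Pol p d)), DualBasis b μ → ∀ n : ℕ,
    (∀ j, b j ^ (p ^ n) = ∑ i, hpow p (frobMat b μ) n i j • b i) ∧
    (∀ i j, ∑ k, μ i (b k) * hpow p (frobMat b μ) (n + 1) k j = hpow p (frobMat b μ) (n + 1) i j)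

/-- [TF c2] nilpotence in the fibre over `y`. (Uses `S_frobpow`.)

Proof. Make `K` a `P`-algebra by `aeval y` (`P = Pol p d`); `R = K ⊗[P] B` is a finite-dimensional
commutative `K`-algebra (`B` is finite over `P` because of the dual basis), `β = ∑ j, a_j ⊗ b_j ∈ R`. Every
maximal ideal of `R` is the kernel of a `K`-algebra hom `φ : R → K` (`K` algebraically closed, `R / 𝔪` a
finite extension); `x b = φ (1 ⊗ b)` is a ring hom `B → K` with `x t_i = y_i`, so `φ β = ∑ a_j x (b_j) = 0`.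
So `β` lies in all maximal ideals of the Artinian ring `R`, hence is nilpotent, `β ^ (p ^ n) = 0` for
`n ≥ n₀`. Now `β ^ (p ^ n) = ∑ j, a_j ^ (p ^ n) ⊗ b_j ^ (p ^ n) = ∑ i, c_i ⊗ b_i`,
`c_i = ∑ j, aeval y (hpow p F n i j) * a_j ^ (p ^ n)` (`S_frobpow`). Apply `1 ⊗ μ_l : R → K ⊗[P] P = K`:
`∑ i, c_i * aeval y (μ_l (b_i)) = 0` for all `l`; for `n ≥ 1` the left side is `c_l` (second part of
`S_frobpow`). -/
def S_nilfib : Prop :=
  ∀ (p d r : ℕ) [Fact p.Prime] (B : Type) [CommRing B] [Algebra (Pol p d) B] (b : Fin r → B)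
    (μ : Fin r → (B →ₗ[Pol p d] Pol p d)), DualBasis b μ →
    ∀ (K : Type) [Field K] [IsAlgClosed K] [Algebra (ZMod p) K] (y : Fin d → K) (a : Fin r → K),
    (∀ x : B →+* K, (∀ i, x (algebraMap (Pol p d) B (X i)) = y i) → ∑ j, a j * x (b j) = 0) →
    ∃ n₀ : ℕ, ∀ n ≥ n₀, ∀ i,
      ∑ j, (aeval y (hpow p (frobMat b μ) n i j) : K) * a j ^ (p ^ n) = 0

/-- [TF c3] `XPt` is finite.

Proof. `x ∈ XPt` maps to the point `(x t_i)_i` of the finite set `fpts p M d K`, and `x` is determined by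
this point and the values `x (b_j)` at generators of `B` over `P`; each `b_j` satisfies a monic equation
over `P`, so `x (b_j)` is a root of one of finitely many monic polynomials over `K`. -/
def S_xfin : Prop :=
  ∀ (p M d : ℕ) [Fact p.Prime] (B K : Type) [CommRing B] [Algebra (Pol p d) B]
    [Module.Finite (Pol p d) B] [Field K], M ≠ 0 → Finite (XPt p M d B K)

/-- [TF c4] the characteristic polynomial of `phiMat` in characteristic `p`. (Uses `S_nilfib`.)

Proof. `Φ = phiMat p M id H`, `Φ f y = F(y) f(y ^ p)` on `V = (Y × Fin r → K)`, `Y = fpts p M d K`, `F(y)` the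
value of `F = frobMat b μ` at `y`. `ev : V → (XPt → K)`, `ev f x = ∑ j, f(y_x)_j x (b_j)`, `y_x = (x t_i)_i`,
as a matrix `E` (rows `XPt`, columns `Y × Fin r`); `Π = permMat` over `K`.
(1) `E Φ = Π E`: `∑ i, (F(y_x) f(y_x ^ p))_i x (b_i) = ∑ j, f(y_x ^ p)_j x (∑ i, F_ij b_i) =
∑ j, f(y_x ^ p)_j x (b_j) ^ p`, and `b ↦ x b ^ p` is the point `x ^ p` lying over `y_x ^ p`.
(2) `E` is surjective, i.e. its rows are linearly independent (rows of points over different `y` have
disjoint supports; over one `y` a relation `∑ x, c_x x (b_j) = 0` for all `j` gives `∑ x, c_x x (b) = 0` for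
all `b ∈ B`, so `c = 0` by Dedekind, `linearIndependent_monoidHom`).
(3) if `E f = 0` then `Φ ^ n f = 0` for large `n`: by induction `(Φ ^ n f)(y) = (hpow n)(y) f(y ^ (p ^ n))`, and
the `p ^ n`-th powers of its entries are `((hpow n)(z) f(z) ^ (p ^ n))_i`, `z = y ^ (p ^ n)` (coefficients in
`F_p`), which vanish for `n ≥ n₀` by `S_nilfib` (`a = f(z)`). So (finite dimension) there is one `n₀` with
`Φ ^ n = 0` on `ker E` for all `n ≥ n₀`.
(4) take `q = p ^ s ≥ n₀`, `n = q`: `Φ ^ q` kills `ker E` and `E` is surjective, so `Φ ^ q = T E` for a matrix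
`T`; `E T E = E Φ ^ q = Π ^ q E`, so `E T = Π ^ q`; `det (1 - X T E) = det (1 - X E T)`
(`Matrix.det_one_sub_mul_comm`), so `charpolyRev (Φ ^ q) = charpolyRev (Π ^ q)`.
(5) in characteristic `p`: `charpolyRev (A ^ q) (X ^ q) = det (1 - X ^ q A ^ q) = det ((1 - X A) ^ q) =
(charpolyRev A) ^ q` (`sub_pow_char_pow_of_commute`; `1` and `X A` commute); so
`(charpolyRev Φ) ^ q = (charpolyRev Π) ^ q` and `charpolyRev Φ = charpolyRev Π` (Frobenius is injective on
`K[X]`). -/
def S_phichar : Prop :=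
  ∀ (p M d r : ℕ) [Fact p.Prime] (B K : Type) [CommRing B] [Algebra (Pol p d) B] [Field K]
    [IsAlgClosed K] [Algebra (ZMod p) K] [Fintype (XPt p M d B K)]
    [DecidableEq (XPt p M d B K)] (b : Fin r → B) (μ : Fin r → (B →ₗ[Pol p d] Pol p d)),
    DualBasis b μ → ∀ H : Matrix (Fin r) (Fin r) (MvPolynomial (Fin d) ℤ),
    IsLift H (frobMat b μ) → M ≠ 0 →
    (phiMat p M (fun y : K => y) H).charpolyRev = (permMat p M d B K K).charpolyRev

/-- [TF c5] permutation matrices with few fixed points. (Uses `S_ldchar`, `S_ld`.)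

Proof. `Π` the matrix `Π x x' = 1` if `x' = π x`, `0` otherwise, over `ℤ`; `Π ^ k` is the matrix of `π ^ k`, its
trace is the number of `x` with `π ^ k x = x`, `= c ^ k` for `1 ≤ k ≤ N`. The `1 × 1` matrix `(c)` has
`charpolyRev = 1 - c X` and traces `c ^ k`. `S_ldchar`, `S_ld`. -/
def S_permrev : Prop :=
  ∀ (Y : Type) [Fintype Y] [DecidableEq Y] (π : Y → Y) (N : ℕ) (c : ℤ),
    (∀ k, 1 ≤ k → k ≤ N → (Nat.card {x : Y // π^[k] x = x} : ℤ) = c ^ k) →
    ∀ k ≤ N, (Matrix.charpolyRev (fun x x' : Y => if x' = π x then (1 : ℤ) else 0)).coeff k =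
      (1 - Polynomial.C c * Polynomial.X : Polynomial ℤ).coeff k

/-- [TF c6] (Uses `S_points`, `S_xfin`, `S_phichar`, `S_permrev`.)

Proof. `XPt p M m B K` is finite; the Frobenius `π x = (b ↦ x b ^ p)` maps it to itself;
`π ^ n x = x` iff `x b ^ (p ^ n) = x b` for all `b`, and every such `x : B →+* K` is in `XPt` when `n ∣ M`. So for
`1 ≤ n ≤ N` the number of fixed points is `p ^ (m n) = (p ^ m) ^ n` (`S_points`). `S_permrev` gives
`charpolyRev ≡ 1 - p ^ m X` modulo `X ^ (N+1)` over `ℤ`, map it to `K` (`p ^ m ↦ 0`, `m ≠ 0`;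
`charpolyRev` commutes with ring homs) and use `S_phichar`. -/
def S_phione : Prop :=
  ∀ (p m : ℕ) [Fact p.Prime] (B : Type) [CommRing B] [Algebra (ZMod p) B]
    (ev : ∀ J : {J : Ideal (Pol p m) // Finite (Pol p m ⧸ J)}, B →ₐ[ZMod p] Pol p m ⧸ J.1),
    IsTR p (Pol p m) B ev → m ≠ 0 → ∀ [Algebra (Pol p m) B] (r : ℕ) (b : Fin r → B)
    (μ : Fin r → (B →ₗ[Pol p m] Pol p m)), DualBasis b μ →
    ∀ H : Matrix (Fin r) (Fin r) (MvPolynomial (Fin m) ℤ), IsLift H (frobMat b μ) →
    ∀ (K : Type) [Field K] [IsAlgClosed K] [CharP K p] (M N : ℕ), M ≠ 0 →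
    (∀ n, 1 ≤ n → n ≤ N → n ∣ M) →
    ∀ k ≤ N, (phiMat p M (fun y : K => y) H).charpolyRev.coeff k = if k = 0 then 1 else 0

/-! ## Part 3: conclusion -/

/-- [TF d1] `charpolyRev = 1` implies nilpotent.

Proof. `charpolyRev` has degree `≤ card n`, so it is `1`, so `charpoly = X ^ (card n)`
(`Matrix.reverse_charpoly`, monic of degree `card n`); Cayley-Hamilton. -/
def S_nilp : Prop :=
  ∀ (K : Type) [Field K] (n : Type) [Fintype n] [DecidableEq n] (A : Matrix n n K),
    (∀ k ≤ Fintype.card n, A.charpolyRev.coeff k = if k = 0 then 1 else 0) → IsNilpotent A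

/-- [TF d2] Teichmüller representatives exist.

Proof. `O = WittVector p K`: a domain (`WittVector.instIsDomain`) of characteristic zero (`p ≠ 0` by
`WittVector.p_nonzero`; an integer `n ≠ 0` is `p ^ k u`, `u` prime to `p`, and `constantCoeff u ≠ 0`),
`tei = WittVector.teichmuller p`, `red = WittVector.constantCoeff`. -/
def S_witt : Prop :=
  ∀ (p : ℕ) [Fact p.Prime] (K : Type) [Field K] [CharP K p], ∃ (O : Type) (_ : CommRing O),
    IsDomain O ∧ CharZero O ∧ Nonempty (TeiData K O)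

/-- [TF d3] nilpotent matrices give nilpotent Cartier operators.

Proof. For a row `ℓ = (l (b_j))_j` (`l : B → P` linear) one has `cart l (b_j) = psi (l (b_j ^ p)) =
psi (∑ i, F_ij l (b_i))` (`F = frobMat b μ`, `b_j ^ p = ∑ i, F_ij b_i`), and `cart l` is again `P`-linear
(`psi (a ^ p c) = a * psi c`). Choose `D ≥ D₀` with `degreeOf i (l (b_j)) + 1 ≤ D` for all `i, j`. Write
`l (b_i) = ∑ v ∈ Idx d D ∅, L (v, i) t ^ (v - 1)`; then `psi (∑ i, F_ij l (b_i))` has the coefficient
`∑ v i, L (v, i) * coeff (p w - v) (F i j)` at `t ^ (w - 1)` for every `w ≥ 1` (`psi (t ^ u t ^ (v - 1)) =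
t ^ (w - 1)` iff `u + v = p w`), it is `0` unless `w ≤ D` (`u ≤ (p - 1) D`), so the row of `cart l` is
`L ᵥ* opMat p D ∅ F`. `opMat p D ∅ F` is the reduction modulo `p` of `opMat p D ∅ H`, its image in `K` is
nilpotent, so it is nilpotent (`ZMod p → K` injective); if its `N`-th power is `0` then
`cart^[N] l` vanishes at the `b_j`, so `= 0` by linearity. -/
def S_cartnil : Prop :=
  ∀ (p d r : ℕ) [Fact p.Prime] (B : Type) [CommRing B] [Algebra (Pol p d) B] (b : Fin r → B)
    (μ : Fin r → (B →ₗ[Pol p d] Pol p d)), DualBasis b μ →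
    ∀ H : Matrix (Fin r) (Fin r) (MvPolynomial (Fin d) ℤ), IsLift H (frobMat b μ) →
    ∀ (K : Type) [Field K] [CharP K p] (D₀ : ℕ), DegLe ((p - 1) * D₀) H →
    (∀ D ≥ D₀, IsNilpotent ((opMat p D ∅ H).map (Int.castRingHom K))) →
    ∀ l : B →ₗ[Pol p d] Pol p d, ∃ N : ℕ, ∀ c : B, (cart^[N] (l : B → Pol p d)) c = 0

/-- [TF d4] THEOREM A. (Uses everything.)

Proof. `B` is a finitely generated `F_p`-algebra: Noether normalisation
(`exists_finite_inj_algHom_of_fg`) gives `Pol p d → B` injective and finite, `d = m` by `S_dim`; let `s_i` be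
the images of the variables. By `S_noether` there is `M ≥ 1` such that `B` is finite over `Pol p m` via
`ι = aeval (x_i + s_i ^ (p M))`; put `g_i = s_i ^ M`. View `B` as `Pol p m`-algebra by `ι`: projective by
`S_proj`, so there is a dual basis `(b, μ)` (`Module.Projective` + finite). Choose a lift `H` of `frobMat b μ`
to `ℤ` (coefficients `ZMod.val`/`Function.surjInv`) and `D₀` with `DegLe ((p - 1) * D₀) H` (`p ≥ 2`).
`K = AlgebraicClosure (ZMod p)`, `O` from `S_witt`. For `D ≥ D₀`: let `N` be the size of `opMat p D ∅ H`,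
`M' = N!`; `S_phione` and `S_modp` give the hypothesis of `S_nilp`. So `S_cartnil` applies; a map `l` as in the
statement is `Pol p m`-linear. -/
def S_thmA : Prop :=
  ∀ (p m : ℕ) [Fact p.Prime] (B : Type) [CommRing B] [Algebra (ZMod p) B]
    (ev : ∀ J : {J : Ideal (Pol p m) // Finite (Pol p m ⧸ J)}, B →ₐ[ZMod p] Pol p m ⧸ J.1),
    IsTR p (Pol p m) B ev → m ≠ 0 → ∀ x : Fin m → B, ∃ g : Fin m → B,
    (aeval (fun i => x i + g i ^ p) : Pol p m →ₐ[ZMod p] B).Finite ∧
    ∀ l : B →+ Pol p m,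
      (∀ (a : Pol p m) (c : B), l (aeval (fun i => x i + g i ^ p) a * c) = a * l c) →
      ∃ N : ℕ, ∀ c : B, (cart^[N] (l : B → Pol p m)) c = 0

end Pool.Agent.F2TF
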