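import Pool.Agent.Lib.MP_305fdd_al.F2.TF.P.a1
import Pool.Agent.Lib.MP_305fdd_al.F2.TF.P.a2
import Pool.Agent.Lib.MP_305fdd_al.F2.TF.P.a3
import Pool.Agent.Lib.MP_305fdd_al.F2.TF.P.a4
import Pool.Agent.Lib.MP_305fdd_al.F2.TF.P.a5
import Pool.Agent.Lib.MP_305fdd_al.F2.TF.P.a6
import Pool.Agent.Lib.MP_305fdd_al.F2.TF.P.a7
import Pool.Agent.Lib.MP_305fdd_al.F2.TF.P.a8
import Pool.Agent.Lib.MP_305fdd_al.F2.TF.P.b1
import Pool.Agent.Lib.MP_305fdd_al.F2.TF.P.b3
import Pool.Agent.Lib.MP_305fdd_al.F2.TF.P.b4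
import Pool.Agent.Lib.MP_305fdd_al.F2.TF.P.b5
import Pool.Agent.Lib.MP_305fdd_al.F2.TF.P.b6
import Pool.Agent.Lib.MP_305fdd_al.F2.TF.P.b7
import Pool.Agent.Lib.MP_305fdd_al.F2.TF.P.b8
import Pool.Agent.Lib.MP_305fdd_al.F2.TF.P.b9
import Pool.Agent.Lib.MP_305fdd_al.F2.TF.P.c1
import Pool.Agent.Lib.MP_305fdd_al.F2.TF.P.c2
import Pool.Agent.Lib.MP_305fdd_al.F2.TF.P.c3
import Pool.Agent.Lib.MP_305fdd_al.F2.TF.P.c4
import Pool.Agent.Lib.MP_305fdd_al.F2.TF.P.c5
import Pool.Agent.Lib.MP_305fdd_al.F2.TF.P.c6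
import Pool.Agent.Lib.MP_305fdd_al.F2.TF.P.d1
import Pool.Agent.Lib.MP_305fdd_al.F2.TF.P.d2
import Pool.Agent.Lib.MP_305fdd_al.F2.TF.P.d3
import Pool.Agent.Lib.MP_305fdd_al.F2.TF.P.d4

/-!
# MP_305fdd_al (`F_2`), section A: Theorem A (nilpotence of the Cartier operator), all pieces.
-/

set_option autoImplicit false

namespace Pool.Agent.F2TF

theorem compcard : S_compcard := p_compcard
theorem count : S_count := p_count compcard
theorem points : S_points := p_points
theorem dual : S_dual := p_dual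
theorem dim : S_dim := p_dim compcard count dual
theorem noether : S_noether := p_noether
theorem indep : S_indep := p_indep compcard count
theorem proj : S_proj := p_proj indep
theorem opmul : S_opmul := p_opmul
theorem opdeg : S_opdeg := p_opdeg
theorem teisum : S_teisum := p_teisum
theorem ptsum : S_ptsum := p_ptsum teisum
theorem phitr : S_phitr := p_phitr
theorem trace : S_trace := p_trace opmul opdeg ptsum phitr
theorem ldchar : S_ldchar := p_ldchar
theorem ld : S_ld := p_ld
theorem modp : S_modp := p_modp trace ldchar ld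
theorem frobpow : S_frobpow := p_frobpow
theorem nilfib : S_nilfib := p_nilfib frobpow
theorem xfin : S_xfin := p_xfin
theorem phichar : S_phichar := p_phichar nilfib
theorem permrev : S_permrev := p_permrev ldchar ld
theorem phione : S_phione := p_phione points xfin phichar permrev
theorem nilp : S_nilp := p_nilp
theorem witt : S_witt := p_witt
theorem cartnil : S_cartnil := p_cartnil

/-- THEOREM A -/
theorem thmA : S_thmA := p_thmA dim noether proj phione modp nilp witt cartnil

end Pool.Agent.F2TF
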