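import Pool.Agent.Lib.MP_305fdd_al.CC.Defs

/-!
# MP_305fdd_al (`F_2`), section A (nilpotence of the Cartier operator): definitions
-/

set_option autoImplicit false

namespace Pool.Agent.F2TF

open MvPolynomial

/-- the polynomial ring `F_p[t_1, .., t_d]` -/
abbrev Pol (p d : ℕ) : Type := MvPolynomial (Fin d) (ZMod p)

/-- the ideal generated by the `q`-th powers of the elements of `I` -/
def fpow {R : Type} [CommRing R] (q : ℕ) (I : Ideal R) : Ideal R :=
  Ideal.span ((fun a => a ^ q) '' (I : Set R))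

section comp

variable {p d : ℕ} [hp : Fact p.Prime]

theorem shift_inj (α : Fin d →₀ ℕ) : Function.Injective fun w : Fin d →₀ ℕ => p • w + α := by
  intro v w h
  have h1 : p • v = p • w := add_right_cancel h
  ext i
  have := DFunLike.congr_fun h1 i
  simp only [Finsupp.smul_apply, smul_eq_mul] at this
  exact Nat.eq_of_mul_eq_mul_left hp.out.pos this

/-- the component of exponent `α`: `coeff w (comp α a) = coeff (p • w + α) a` -/
noncomputable def comp (α : Fin d →₀ ℕ) : Pol p d →+ Pol p d where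
  toFun a := AddMonoidAlgebra.ofCoeff
    (Finsupp.comapDomain (fun w : Fin d →₀ ℕ => p • w + α) (AddMonoidAlgebra.coeff a)
      (shift_inj α).injOn)
  map_zero' := by
    ext m
    rfl
  map_add' a b := by
    ext m
    rfl

@[simp]
theorem coeff_comp (α w : Fin d →₀ ℕ) (a : Pol p d) :
    coeff w (comp α a) = coeff (p • w + α) a := rfl

/-- the constant exponent `(c, .., c)` -/
noncomputable def cst (c : ℕ) : Fin d →₀ ℕ := Finsupp.equivFunOnFinite.symm fun _ => c

@[simp]
theorem cst_apply (c : ℕ) (i : Fin d) : (cst c : Fin d →₀ ℕ) i = c := rfl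

/-- the Cartier operator of the polynomial ring: `t ^ v ↦ t ^ ((v + 1) / p - 1)` -/
noncomputable def psi : Pol p d →+ Pol p d := comp (cst (p - 1))

theorem coeff_psi (w : Fin d →₀ ℕ) (a : Pol p d) :
    coeff w (psi a) = coeff (p • w + cst (p - 1)) a := rfl

/-- the Cartier operator on maps `B → P`: `(cart f)(b) = psi (f (b ^ p))` -/
noncomputable def cart {B : Type} [CommRing B] (f : B → Pol p d) : B → Pol p d :=
  fun b => psi (f (b ^ p))

end comp

section mat

variable {d r : ℕ} {R : Type} [CommRing R]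

/-- exponents `v` with `v i ≤ D`, and `v i ≠ 0` for `i ∉ J` -/
abbrev Idx (d D : ℕ) (J : Finset (Fin d)) : Type := {v : Fin d → Fin (D + 1) // ∀ i ∉ J, v i ≠ 0}

/-- the exponent as a `Finsupp` -/
noncomputable def ex {D : ℕ} {J : Finset (Fin d)} (v : Idx d D J) : Fin d →₀ ℕ :=
  Finsupp.equivFunOnFinite.symm fun i => (v.1 i : ℕ)

@[simp]
theorem ex_apply {D : ℕ} {J : Finset (Fin d)} (v : Idx d D J) (i : Fin d) :
    ex v i = (v.1 i : ℕ) := rfl

open Classical in
/-- the matrix of `ℓ ↦ ψ (ℓ * H)` on row vectors of multiples of `∏ i ∉ J, t_i` of degree `≤ D` in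
each variable, where `ψ (t ^ (q * w)) = t ^ w` and `ψ (t ^ u) = 0` if `u ∉ q * ℕ ^ d`:
`(t ^ v e_j) ↦ ∑ w k, coeff (q * w - v) (H j k) t ^ w e_k` -/
noncomputable def opMat (q D : ℕ) (J : Finset (Fin d))
    (H : Matrix (Fin r) (Fin r) (MvPolynomial (Fin d) R)) :
    Matrix (Idx d D J × Fin r) (Idx d D J × Fin r) R :=
  fun a b => if ex a.1 ≤ q • ex b.1 then coeff (q • ex b.1 - ex a.1) (H a.2 b.2) else 0

/-- `H(t) H(t ^ p) ⋯ H(t ^ (p ^ (n - 1)))` -/
noncomputable def hpow (p : ℕ) (H : Matrix (Fin r) (Fin r) (MvPolynomial (Fin d) R)) :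
    ℕ → Matrix (Fin r) (Fin r) (MvPolynomial (Fin d) R)
  | 0 => 1
  | n + 1 => H * (hpow p H n).map (expand p)

/-- all entries of `H` have degree `≤ e` in each variable -/
def DegLe (e : ℕ) (H : Matrix (Fin r) (Fin r) (MvPolynomial (Fin d) R)) : Prop :=
  ∀ i j k, degreeOf i (H j k) ≤ e

end mat

section points

variable {p : ℕ} {K : Type} [Field K]

open Classical in
/-- the finite set of all `y` with `y ^ (p ^ n) = y` -/
noncomputable def fset (p n : ℕ) (K : Type) [Field K] : Finset K :=
  (Polynomial.X ^ (p ^ n) - Polynomial.X : Polynomial K).roots.toFinset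

theorem mem_fset [hp : Fact p.Prime] {n : ℕ} (hn : n ≠ 0) (y : K) :
    y ∈ fset p n K ↔ y ^ (p ^ n) = y := by
  classical
  have h : (Polynomial.X ^ (p ^ n) - Polynomial.X : Polynomial K) ≠ 0 :=
    FiniteField.X_pow_card_pow_sub_X_ne_zero K hn hp.out.one_lt
  rw [fset, Multiset.mem_toFinset, Polynomial.mem_roots h]
  simp [sub_eq_zero]

theorem card_fset [hp : Fact p.Prime] [CharP K p] [IsAlgClosed K] {n : ℕ} (hn : n ≠ 0) :
    (fset p n K).card = p ^ n := by
  classical
  have hsep : (Polynomial.X ^ (p ^ n) - Polynomial.X : Polynomial K).Separable :=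
    galois_poly_separable p (p ^ n) (dvd_pow_self p hn)
  rw [fset, Multiset.toFinset_card_of_nodup (Polynomial.nodup_roots hsep),
    Polynomial.splits_iff_card_roots.mp (IsAlgClosed.splits _),
    FiniteField.X_pow_card_pow_sub_X_natDegree_eq K hn hp.out.one_lt]

/-- the points of affine `d`-space over the field with `p ^ n` elements -/
noncomputable def fpts (p n d : ℕ) (K : Type) [Field K] : Finset (Fin d → K) :=
  Fintype.piFinset fun _ => fset p n K

theorem mem_fpts [hp : Fact p.Prime] {n d : ℕ} (hn : n ≠ 0) (y : Fin d → K) :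
    y ∈ fpts p n d K ↔ ∀ i, y i ^ (p ^ n) = y i := by
  simp only [fpts, Fintype.mem_piFinset, mem_fset hn]

noncomputable instance (p n d : ℕ) (K : Type) [Field K] : DecidableEq ↥(fpts p n d K) :=
  Classical.decEq _

/-- A field `K` of characteristic `p`, a domain `O` of characteristic zero, `red : O → K` and
Teichmüller representatives `tei : K → O`. -/
structure TeiData (K O : Type) [Field K] [CommRing O] where
  /-- the Teichmüller representative -/
  tei : K →* O
  /-- the reduction -/
  red : O →+* K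
  red_tei : ∀ y, red (tei y) = y
  tei_zero : tei 0 = 0

open Classical in
/-- the matrix of `f ↦ (y ↦ H(y) f(y ^ p))` on column vectors of functions on `fpts p M d K`, the
coordinates of the points mapped to the ring `O` by `τ` -/
noncomputable def phiMat {O : Type} [CommRing O] (p M : ℕ) {d r : ℕ} (τ : K → O)
    (H : Matrix (Fin r) (Fin r) (MvPolynomial (Fin d) ℤ)) :
    Matrix (↥(fpts p M d K) × Fin r) (↥(fpts p M d K) × Fin r) O :=
  fun a b => if (b.1 : Fin d → K) = (fun i => (a.1 : Fin d → K) i ^ p) then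
    aeval (fun i => τ ((a.1 : Fin d → K) i)) (H a.2 b.2) else 0

end points

section ld

/-- `f` has constant coefficient `1` and `X f' = - f * ∑ n ≥ 1, s n X ^ n`, coefficientwise. -/
def LD {O : Type} [CommRing O] (f : PowerSeries O) (s : ℕ → O) : Prop :=
  PowerSeries.coeff 0 f = 1 ∧ ∀ k : ℕ, ((k : O) + 1) * PowerSeries.coeff (k + 1) f =
    - ∑ j ∈ Finset.range (k + 1), s (j + 1) * PowerSeries.coeff (k - j) f

end ld

section alg

/-- the `K`-points of `B` lying over `fpts p M d K` -/
abbrev XPt (p M d : ℕ) (B K : Type) [CommRing B] [Algebra (Pol p d) B] [Field K] : Type :=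
  {x : B →+* K // ∀ i : Fin d, x (algebraMap (Pol p d) B (X i)) ^ (p ^ M) =
    x (algebraMap (Pol p d) B (X i))}

open Classical in
/-- the matrix of the Frobenius `x ↦ (b ↦ x b ^ p)` on the functions on `XPt p M d B K` -/
noncomputable def permMat (p M d : ℕ) (B K R : Type) [CommRing B] [Algebra (Pol p d) B] [Field K]
    [CommRing R] : Matrix (XPt p M d B K) (XPt p M d B K) R :=
  fun x x' => if ∀ b, x'.1 b = x.1 b ^ p then 1 else 0

/-- dual basis `(b_j, μ_j)` of the finite projective `P`-algebra `B` -/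
def DualBasis {p d r : ℕ} {B : Type} [CommRing B] [Algebra (Pol p d) B] (b : Fin r → B)
    (μ : Fin r → (B →ₗ[Pol p d] Pol p d)) : Prop :=
  ∀ x, ∑ j, μ j x • b j = x

/-- the matrix of the Frobenius in the coordinates of a dual basis -/
noncomputable def frobMat {p d r : ℕ} {B : Type} [CommRing B] [Algebra (Pol p d) B] (b : Fin r → B)
    (μ : Fin r → (B →ₗ[Pol p d] Pol p d)) : Matrix (Fin r) (Fin r) (Pol p d) :=
  fun i j => μ i (b j ^ p)

/-- `H` is a lift to `ℤ` of the matrix `H'` over `F_p` -/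
def IsLift {p d r : ℕ} (H : Matrix (Fin r) (Fin r) (MvPolynomial (Fin d) ℤ))
    (H' : Matrix (Fin r) (Fin r) (Pol p d)) : Prop :=
  ∀ i j, MvPolynomial.map (Int.castRingHom (ZMod p)) (H i j) = H' i j

end alg

end Pool.Agent.F2TF
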